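import Mathlib
import Pool.Agent.Helper849.TA.Main3
import Pool.Agent.H614R3.P2Step
import Pool.Agent.H291R3.TILT.P2Red
import Pool.Agent.H291R3.TILT.ClosedK
import Pool.Agent.H980R3.TA.ElimK
import Pool.Agent.H171R3.TILT.K1

/-!
# Global algebraic approximation of tilted preimages: images of complete intersections

Let `K ⊆ ℂ_p` be a perfectoid field, `K♭ ⊆ ℂ_p♭` its tilt. Let `X ⊆ ℙ^n` be closed, defined over
`K`, of dimension `D`. Suppose that there are

* a complete intersection `V` in the projective bundle over `ℙ^N` with homogeneous coordinates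
  `x_0, …, x_N` (of bidegree `(1, 0)`) and `y_0, …, y_m` (`y_i` of bidegree `(v_i, 1)`), given by
  `c₁` forms `q_j` in `x` alone and `c₂ ≥ m` bihomogeneous polynomials `r_j` of ample bidegrees
  `(a_j, b_j)` (i.e. `b_j > 0` and `a_j > b_j v_i` for all `i`), where `D = N + m - c₁ - c₂`;
* forms `f_0, …, f_n` in `x` of the same degree without common zero on `V`, such that `f` maps `V`
  into `X`,

all over `K`. Then each neighbourhood `{|h_k| ≤ ε |x|^{deg h_k}}` of `X`, `h_k` forms vanishing on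
`X`, contains `π(Y)` for some closed `Y ⊆ ℙ^n` over `K♭`, of dimension `D`.
-/

set_option autoImplicit false

namespace Pool.Agent.Results.MP_db3ab1_ag.ImagesOverPerfectoidSubfields

open Pool.Agent.Helper849.TA Pool.Agent.H356R3.FM MvPolynomial

/-- Approximation of the tilted preimage of a closed subset of `ℙ^n` over a perfectoid subfield of
`ℂ_p` which receives a morphism from a complete intersection of the same dimension in a projective
bundle over `ℙ^N`. -/
theorem result (p : ℕ) [Fact p.Prime] (K : Subfield (PadicComplex p))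
    (hK : IsPerfectoidSubfield p K) (n N m D c₁ c₂ e : ℕ)
    (he : 0 < e) (hdim : D + c₁ + c₂ = N + m) (hm : m ≤ c₂)
    (q : Fin c₁ → MvPolynomial (Fin (N + 1)) K) (dq : Fin c₁ → ℕ)
    (hq : ∀ j, 0 < dq j ∧ (q j).IsHomogeneous (dq j))
    (v : Fin (m + 1) → ℕ)
    (r : Fin c₂ → MvPolynomial (Fin (N + 1) ⊕ Fin (m + 1)) K) (a b : Fin c₂ → ℕ)
    (hr1 : ∀ j, IsWeightedHomogeneous (Sum.elim (fun _ => 1) v) (r j) (a j))
    (hr2 : ∀ j, IsWeightedHomogeneous (Sum.elim (fun _ => 0) (fun _ => 1) :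
      Fin (N + 1) ⊕ Fin (m + 1) → ℕ) (r j) (b j))
    (hab : ∀ j, 0 < b j ∧ ∀ i, b j * v i < a j)
    (f : Fin (n + 1) → MvPolynomial (Fin (N + 1)) K)
    (hf : ∀ i, (f i).IsHomogeneous e)
    (hbase : ∀ (x : Fin (N + 1) → PadicComplex p) (y : Fin (m + 1) → PadicComplex p),
      (∀ j, aeval x (q j) = 0) → (∀ j, aeval (Sum.elim x y) (r j) = 0) →
      (∀ i, aeval x (f i) = 0) → x = 0 ∨ y = 0)
    (X : Set (Fin (n + 1) → PadicComplex p)) (_hX : IsProjClosedOver K X) (hXD : HasDim X D)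
    (hfX : ∀ (x : Fin (N + 1) → PadicComplex p) (y : Fin (m + 1) → PadicComplex p),
      x ≠ 0 → y ≠ 0 → (∀ j, aeval x (q j) = 0) → (∀ j, aeval (Sum.elim x y) (r j) = 0) →
      (fun i => aeval x (f i)) ∈ X)
    (t : ℕ) (h : Fin t → MvPolynomial (Fin (n + 1)) (PadicComplex p)) (dh : Fin t → ℕ)
    (hh : ∀ k, (h k).IsHomogeneous (dh k)) (hhX : ∀ k, ∀ x ∈ X, eval x (h k) = 0)
    (ε : ℝ) (hε : 0 < ε) :
    ∃ Y : Set (Fin (n + 1) → Kf p), IsProjClosedOver (tiltK p K) Y ∧ HasDim Y D ∧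
      ∀ y ∈ Y, ∀ k, ‖eval (fun i => sharp p (y i)) (h k)‖ ≤
        ε * ‖(fun i => sharp p (y i) : Fin (n + 1) → PadicComplex p)‖ ^ (dh k) :=
  main3' p (Pool.Agent.H291R3.TILT.taskP2_of_step Pool.Agent.H614R3.P2.taskP2Step)
    Pool.Agent.H171R3.TILT.taskK1 Pool.Agent.H291R3.TILT.taskClosedK
    Pool.Agent.H980R3.TAElimK.taskElimK K hK n N m D c₁ c₂ e he hdim hm q dq hq v r a b hr1 hr2 hab
    f hf hbase X hXD hfX t h dh hh hhX ε hε

end Pool.Agent.Results.MP_db3ab1_ag.ImagesOverPerfectoidSubfields
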